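import Pool.Agent.helper28.LT.Defs
import Pool.Agent.helper77.FT.E1
import Pool.Agent.helper63.FT.E2

set_option autoImplicit false

/-! LT project, module WC: Weyl differencing over residue classes. -/

namespace Pool.Agent.helper28.LT

open Finset NumberField Pool.Agent.helper3.FT Pool.Agent.helper47.RA

/-- the sum over the box with linear terms -/
noncomputable def WC_S (M G : ℕ) (a b c x y : ℝ) : ℂ :=
  ∑ m ∈ Icc (-(M : ℤ)) M, ∑ g ∈ Icc (-(G : ℤ)) G,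
    e (a * m ^ 2 + b * m * g + c * g ^ 2 + x * m + y * g)

theorem WC_wt_nonneg (N : ℕ) (x : ℝ) : 0 ≤ wt N x := by
  unfold wt
  split_ifs
  · positivity
  · have : 0 ≤ nd x := abs_nonneg _
    positivity

theorem WC_weyl (M G : ℕ) (a b c x y : ℝ) : ‖WC_S M G a b c x y‖ ^ 2 ≤
    ∑ u ∈ Icc (-(2 * M : ℤ)) (2 * M), ∑ v ∈ Icc (-(2 * G : ℤ)) (2 * G),
      wt M (2 * a * u + b * v) * wt G (b * u + 2 * c * v) := by
  have h0 : ‖WC_S M G a b c x y‖ ^ 2 =
      ‖WC_S M G a b c x y * (starRingEnd ℂ) (WC_S M G a b c x y)‖ := by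
    rw [norm_mul, RCLike.norm_conj, sq]
  have h1 : WC_S M G a b c x y * (starRingEnd ℂ) (WC_S M G a b c x y) =
      ∑ m ∈ Icc (-(M : ℤ)) M, ∑ m' ∈ Icc (-(M : ℤ)) M, ∑ g ∈ Icc (-(G : ℤ)) G, ∑ g' ∈ Icc (-(G : ℤ)) G,
        e ((a * m ^ 2 + b * m * g + c * g ^ 2 + x * m + y * g) -
          (a * m' ^ 2 + b * m' * g' + c * g' ^ 2 + x * m' + y * g')) := by
    unfold WC_S
    rw [map_sum, sum_mul_sum]
    refine sum_congr rfl fun m _ => sum_congr rfl fun m' _ => ?_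
    rw [map_sum, sum_mul_sum]
    refine sum_congr rfl fun g _ => sum_congr rfl fun g' _ => ?_
    rw [E1_conj_e, ← E1_e_add]
    congr 1
  have h2 : ∑ m ∈ Icc (-(M : ℤ)) M, ∑ m' ∈ Icc (-(M : ℤ)) M, ∑ g ∈ Icc (-(G : ℤ)) G, ∑ g' ∈ Icc (-(G : ℤ)) G,
        e ((a * m ^ 2 + b * m * g + c * g ^ 2 + x * m + y * g) -
          (a * m' ^ 2 + b * m' * g' + c * g' ^ 2 + x * m' + y * g')) =
      ∑ u ∈ Icc (-(2 * M : ℤ)) (2 * M), ∑ v ∈ Icc (-(2 * G : ℤ)) (2 * G),
        e (a * u ^ 2 + b * u * v + c * v ^ 2 + x * u + y * v) *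
        ((∑ m' ∈ Icc (max (-(M : ℤ)) (-M - u)) (min (M : ℤ) (M - u)), e ((2 * a * u + b * v) * m')) *
        (∑ g' ∈ Icc (max (-(G : ℤ)) (-G - v)) (min (G : ℤ) (G - v)), e ((b * u + 2 * c * v) * g'))) := by
    rw [E1_reindex M (fun m m' => ∑ g ∈ Icc (-(G : ℤ)) G, ∑ g' ∈ Icc (-(G : ℤ)) G,
        e ((a * m ^ 2 + b * m * g + c * g ^ 2 + x * m + y * g) -
          (a * m' ^ 2 + b * m' * g' + c * g' ^ 2 + x * m' + y * g')))]
    refine sum_congr rfl fun u _ => ?_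
    have h3 : ∀ m' : ℤ, ∑ g ∈ Icc (-(G : ℤ)) G, ∑ g' ∈ Icc (-(G : ℤ)) G,
        e ((a * (m' + u : ℤ) ^ 2 + b * (m' + u : ℤ) * g + c * g ^ 2 + x * (m' + u : ℤ) + y * g) -
          (a * m' ^ 2 + b * m' * g' + c * g' ^ 2 + x * m' + y * g')) =
        ∑ v ∈ Icc (-(2 * G : ℤ)) (2 * G), ∑ g' ∈ Icc (max (-(G : ℤ)) (-G - v)) (min (G : ℤ) (G - v)),
        e (a * u ^ 2 + b * u * v + c * v ^ 2 + x * u + y * v) *
          (e ((2 * a * u + b * v) * m') * e ((b * u + 2 * c * v) * g')) := by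
      intro m'
      rw [E1_reindex G (fun g g' => e ((a * (m' + u : ℤ) ^ 2 + b * (m' + u : ℤ) * g + c * g ^ 2 +
        x * (m' + u : ℤ) + y * g) - (a * m' ^ 2 + b * m' * g' + c * g' ^ 2 + x * m' + y * g')))]
      refine sum_congr rfl fun v _ => sum_congr rfl fun g' _ => ?_
      rw [← E1_e_add, ← E1_e_add]
      congr 1
      push_cast
      ring
    rw [sum_congr rfl fun m' _ => h3 m']
    rw [sum_comm]
    refine sum_congr rfl fun v _ => ?_
    rw [sum_mul_sum, mul_sum]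
    refine sum_congr rfl fun m' _ => ?_
    rw [mul_sum]
  rw [h0, h1, h2]
  refine (norm_sum_le _ _).trans (sum_le_sum fun u _ => (norm_sum_le _ _).trans (sum_le_sum fun v _ => ?_))
  rw [norm_mul, E1_norm_e, one_mul, norm_mul]
  refine mul_le_mul (E1_geom M _ _ _ ?_) (E1_geom G _ _ _ ?_) (norm_nonneg _) (WC_wt_nonneg _ _)
  · have h5 : min (M : ℤ) (M - u) ≤ M := min_le_left _ _
    have h6 : -(M : ℤ) ≤ max (-(M : ℤ)) (-M - u) := le_max_left _ _
    omega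
  · have h5 : min (G : ℤ) (G - v) ≤ G := min_le_left _ _
    have h6 : -(G : ℤ) ≤ max (-(G : ℤ)) (-G - v) := le_max_left _ _
    omega

/-- orthogonality of the additive characters modulo `P` -/
theorem WC_ind (P : ℕ) (hP : 1 ≤ P) (t : ℤ) :
    ∑ j ∈ range P, e ((t : ℝ) / P * j) = if (P : ℤ) ∣ t then (P : ℂ) else 0 := by
  have hP0 : (P : ℝ) ≠ 0 := by positivity
  split_ifs with h
  · obtain ⟨s, rfl⟩ := h
    have : ∀ j ∈ range P, e ((((P : ℤ) * s : ℤ) : ℝ) / P * j) = 1 := by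
      intro j _
      have e1 : (((P : ℤ) * s : ℤ) : ℝ) / P * j = ((s * j : ℤ) : ℝ) := by
        push_cast
        field_simp
      rw [e1, E1_e_int]
    rw [sum_congr rfl this]
    simp
  · have h1 := E1_geom_mul ((t : ℝ) / P) 0 P
    have h2 : (t : ℝ) / P * (((0 : ℤ) + (P : ℕ) : ℤ) : ℝ) = (t : ℝ) := by
      push_cast
      field_simp
      ring
    rw [h2, E1_e_int, Int.cast_zero, mul_zero, E1_e_zero, sub_self] at h1
    have h3 : e ((t : ℝ) / P) - 1 ≠ 0 := by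
      intro h4
      have h5 := E1_norm_sub_one ((t : ℝ) / P)
      rw [h4, norm_zero] at h5
      have h6 : nd ((t : ℝ) / P) = 0 := le_antisymm (by linarith) (abs_nonneg _)
      unfold nd at h6
      rw [abs_eq_zero, sub_eq_zero, div_eq_iff hP0] at h6
      apply h
      refine ⟨round ((t : ℝ) / P), ?_⟩
      have h7 : ((t : ℤ) : ℝ) = (((P : ℤ) * round ((t : ℝ) / P) : ℤ) : ℝ) := by
        push_cast
        rw [mul_comm]
        exact h6
      exact_mod_cast h7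
    have h4 := (mul_eq_zero.mp h1).resolve_right h3
    rw [← h4]
    refine sum_congr rfl fun j _ => ?_
    congr 1
    push_cast
    ring

/-- WC (Weyl with congruences) -/
theorem weyl_cong (M G P : ℕ) (hP : 1 ≤ P) (r r' : ℤ) (a b c : ℝ) :
    ‖ESc M G P r r' a b c‖ ^ 2 ≤
    ∑ u ∈ Icc (-(2 * M : ℤ)) (2 * M), ∑ v ∈ Icc (-(2 * G : ℤ)) (2 * G),
      wt M (2 * a * u + b * v) * wt G (b * u + 2 * c * v) := by
  set R := ∑ u ∈ Icc (-(2 * M : ℤ)) (2 * M), ∑ v ∈ Icc (-(2 * G : ℤ)) (2 * G),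
      wt M (2 * a * u + b * v) * wt G (b * u + 2 * c * v) with hR
  have hR0 : 0 ≤ R := sum_nonneg fun u _ => sum_nonneg fun v _ =>
    mul_nonneg (WC_wt_nonneg _ _) (WC_wt_nonneg _ _)
  have hS : ∀ x y : ℝ, ‖WC_S M G a b c x y‖ ≤ √R := fun x y =>
    Real.le_sqrt_of_sq_le (WC_weyl M G a b c x y)
  have hP0 : (P : ℝ) ≠ 0 := by positivity
  have hPc : (P : ℂ) ≠ 0 := by exact_mod_cast (by omega : P ≠ 0)
  have h1 : (P : ℂ) * P * ESc M G P r r' a b c =
      ∑ j ∈ range P, ∑ j' ∈ range P, e (-(r : ℝ) / P * j) * e (-(r' : ℝ) / P * j') *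
        WC_S M G a b c ((j : ℝ) / P) ((j' : ℝ) / P) := by
    unfold ESc cls WC_S
    rw [sum_filter, mul_sum]
    have h2 : ∀ m : ℤ, ∀ g : ℤ,
        ∑ j ∈ range P, ∑ j' ∈ range P, e (-(r : ℝ) / P * j) * e (-(r' : ℝ) / P * j') *
          e (a * m ^ 2 + b * m * g + c * g ^ 2 + (j : ℝ) / P * m + (j' : ℝ) / P * g) =
        (if (P : ℤ) ∣ m - r then (P : ℂ) else 0) * (if (P : ℤ) ∣ g - r' then (P : ℂ) else 0) *
          e (a * m ^ 2 + b * m * g + c * g ^ 2) := by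
      intro m g
      rw [← WC_ind P hP (m - r), ← WC_ind P hP (g - r'), sum_mul_sum, sum_mul]
      refine sum_congr rfl fun j _ => ?_
      rw [sum_mul]
      refine sum_congr rfl fun j' _ => ?_
      rw [← E1_e_add, ← E1_e_add, ← E1_e_add, ← E1_e_add]
      congr 1
      push_cast
      field_simp
      ring
    have h3 : ∑ j ∈ range P, ∑ j' ∈ range P, e (-(r : ℝ) / P * j) * e (-(r' : ℝ) / P * j') *
        (∑ m ∈ Icc (-(M : ℤ)) M, ∑ g ∈ Icc (-(G : ℤ)) G,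
          e (a * m ^ 2 + b * m * g + c * g ^ 2 + (j : ℝ) / P * m + (j' : ℝ) / P * g)) =
        ∑ m ∈ Icc (-(M : ℤ)) M, ∑ g ∈ Icc (-(G : ℤ)) G, ∑ j ∈ range P, ∑ j' ∈ range P,
          e (-(r : ℝ) / P * j) * e (-(r' : ℝ) / P * j') *
          e (a * m ^ 2 + b * m * g + c * g ^ 2 + (j : ℝ) / P * m + (j' : ℝ) / P * g) := by
      simp_rw [mul_sum]
      rw [sum_congr rfl fun j _ => sum_comm]
      rw [sum_comm]
      refine sum_congr rfl fun m _ => ?_
      rw [sum_congr rfl fun j _ => sum_comm]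
      rw [sum_comm]
    rw [h3]
    refine sum_congr rfl fun m _ => ?_
    rw [sum_filter]
    split_ifs with hm
    · rw [mul_sum]
      refine sum_congr rfl fun g _ => ?_
      rw [h2 m g, if_pos hm]
      split_ifs with hg
      · ring
      · simp
    · rw [mul_zero]
      symm
      refine sum_eq_zero fun g _ => ?_
      rw [h2 m g, if_neg hm]
      simp
  have h2 : (P : ℝ) * P * ‖ESc M G P r r' a b c‖ ≤ P * P * √R := by
    have h3 : (P : ℝ) * P * ‖ESc M G P r r' a b c‖ = ‖(P : ℂ) * P * ESc M G P r r' a b c‖ := by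
      rw [norm_mul, norm_mul, Complex.norm_natCast]
    rw [h3, h1]
    calc ‖∑ j ∈ range P, ∑ j' ∈ range P, e (-(r : ℝ) / P * j) * e (-(r' : ℝ) / P * j') *
          WC_S M G a b c ((j : ℝ) / P) ((j' : ℝ) / P)‖ ≤
        ∑ j ∈ range P, ∑ j' ∈ range P, √R := by
          refine (norm_sum_le _ _).trans (sum_le_sum fun j _ => (norm_sum_le _ _).trans
            (sum_le_sum fun j' _ => ?_))
          rw [norm_mul, norm_mul, E1_norm_e, E1_norm_e, one_mul, one_mul]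
          exact hS _ _
      _ = P * P * √R := by
          rw [sum_const, sum_const, card_range, nsmul_eq_mul, nsmul_eq_mul]
          ring
  have h4 : ‖ESc M G P r r' a b c‖ ≤ √R := by
    have : (0 : ℝ) < (P : ℝ) * P := by positivity
    exact le_of_mul_le_mul_left h2 this
  calc ‖ESc M G P r r' a b c‖ ^ 2 ≤ (√R) ^ 2 := by gcongr
    _ = R := Real.sq_sqrt hR0

/-- WN (from WC and FT.cells) -/
theorem weyl_near : ∃ C : ℝ, 1 ≤ C ∧ ∀ M G P : ℕ, 1 ≤ M → 1 ≤ G → 1 ≤ P → ∀ r r' : ℤ,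
    ∀ a b c : ℝ, ‖ESc M G P r r' a b c‖ ^ 2 ≤
      C * (1 + Real.log M) * (1 + Real.log G) * M * G * ((nearPts M G a b c).card : ℝ) := by
  obtain ⟨C, hC, h⟩ := cells
  refine ⟨C + 1, by linarith, ?_⟩
  intro M G P hM hG hP r r' a b c
  have h1 := (weyl_cong M G P hP r r' a b c).trans (h M G hM hG (2 * a) b b (2 * c))
  refine h1.trans ?_
  have hM1 : (0 : ℝ) ≤ Real.log M := Real.log_natCast_nonneg M
  have hG1 : (0 : ℝ) ≤ Real.log G := Real.log_natCast_nonneg G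
  have e1 : ((Icc (-(4 * M : ℤ)) (4 * M) ×ˢ Icc (-(4 * G : ℤ)) (4 * G)).filter
        (fun p => nd (2 * a * p.1 + b * p.2) ≤ 1 / M ∧ nd (b * p.1 + 2 * c * p.2) ≤ 1 / G)).card =
      (nearPts M G a b c).card := by
    unfold nearPts
    congr 1
  rw [e1]
  gcongr
  linarith

end Pool.Agent.helper28.LT
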