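import Pool.Agent.helper28.LT.Defs

set_option autoImplicit false

/-! LT project, module NS: counting near points by dual points. -/

namespace Pool.Agent.helper28.LT

open Finset NumberField Pool.Agent.helper3.FT Pool.Agent.helper47.RA

theorem NS_mem_pairs {N K y : ℕ} {p : ℕ × ℕ} (h : p ∈ pairs N K y) :
    1 ≤ p.1 ∧ p.1 ≤ N ∧ 1 ≤ p.2 ∧ p.2 ≤ K ∧ N < 2 * p.1 ∧ K < 2 * p.2 ∧ Nat.Coprime p.1 p.2 := by
  unfold pairs at h
  rw [Finset.mem_filter, Finset.mem_product, Finset.mem_Icc, Finset.mem_Icc] at h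
  obtain ⟨⟨⟨a, b⟩, c, d⟩, e, f, g, -⟩ := h
  exact ⟨a, b, c, d, e, f, g⟩

/-- NS, from DM as hypothesis -/
theorem near_sumQ_of
    (dual_mapQ : ∀ (K M' M q L n k h : ℕ) (_ : K < 2 * n) (_ : n ≤ K) (_ : K < 2 * k)
      (_ : k ≤ K) (_ : Nat.Coprime n k) (_ : 1 ≤ q) (_ : 1 ≤ M') (_ : q * M' ≤ M)
      (_ : M ≤ 2 * q * M') (_ : K ^ 3 ≤ L * M) (_ : 1 ≤ h) (_ : 32 * h * M ≤ q * L * K ^ 3)
      (α β γ : ℤ) (_ : ResQ n k q α β γ) (u v : ℤ) (_ : |u| ≤ 4 * M') (_ : |v| ≤ 4 * M)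
      (_ : nd (2 * (h * α / ((n : ℝ) ^ 3 * k)) * u + h * β / ((n : ℝ) ^ 3 * k) * v) ≤ 1 / M')
      (_ : nd (h * β / ((n : ℝ) ^ 3 * k) * u + 2 * (h * γ / ((n : ℝ) ^ 3 * k)) * v) ≤ 1 / M),
      ∃ A A' B X : ℤ, |A| ≤ 34 * q * L ∧ |A'| ≤ 34 * q * L ∧ |B| ≤ 34 * q * L ∧ |X| ≤ L ∧
        5 * h * v = F1 A A' B n k ∧ 5 * h * (q * u) = F2 A' B (q * X) n k)
    (K M' M q L d P y : ℕ) (hq : 1 ≤ q) (hM' : 1 ≤ M') (hqM : q * M' ≤ M)
    (hMq : M ≤ 2 * q * M') (hL : K ^ 3 ≤ L * M) (hd : 1 ≤ d) (hP : 1 ≤ P)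
    (r : ℕ × ℕ → ℤ × ℤ × ℤ)
    (hr : ∀ p : ℕ × ℕ, 1 ≤ p.1 → 1 ≤ p.2 → Nat.Coprime p.1 p.2 → Nat.Coprime q p.1 →
      ResQ p.1 p.2 q (r p).1 (r p).2.1 (r p).2.2) :
    ∑ h ∈ (Ico P (2 * P)).filter (fun h => 32 * (d * h) * M ≤ q * L * K ^ 3),
      ∑ p ∈ (pairs K K y).filter (fun p => Nat.Coprime h (5 * (p.1 * p.2)) ∧ Nat.Coprime q p.1),
        nearN M' M r (d * h) p ≤
      P * (pairs K K y).card + ((dualSetQ K y P q L).card : ℝ) := by
  classical
  have key : ∀ h ∈ (Ico P (2 * P)).filter (fun h => 32 * (d * h) * M ≤ q * L * K ^ 3),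
      ∀ p ∈ (pairs K K y).filter (fun p => Nat.Coprime h (5 * (p.1 * p.2)) ∧ Nat.Coprime q p.1),
        nearN M' M r (d * h) p ≤
        ((1 + ((dualSetQ K y P q L).filter (fun t => (t.1, t.2.1) = (h, p))).card : ℕ) : ℝ) := by
    intro h hh p hp
    obtain ⟨hh1, hh2⟩ := Finset.mem_filter.mp hh
    obtain ⟨hp1, hp2, hp3⟩ := Finset.mem_filter.mp hp
    obtain ⟨a1, a2, a3, a4, a5, a6, a7⟩ := NS_mem_pairs hp1
    have hpos : 1 ≤ h := by
      have := (Finset.mem_Ico.mp hh1).1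
      omega
    unfold nearN
    set S := nearPts M' M ((d * h : ℕ) * (r p).1 / ((p.1 : ℝ) ^ 3 * p.2))
          ((d * h : ℕ) * (r p).2.1 / ((p.1 : ℝ) ^ 3 * p.2))
          ((d * h : ℕ) * (r p).2.2 / ((p.1 : ℝ) ^ 3 * p.2)) with hS
    set Fb := (dualSetQ K y P q L).filter (fun t => (t.1, t.2.1) = (h, p)) with hFb
    have hsub : S ⊆ insert ((0 : ℤ), (0 : ℤ)) (Fb.image (fun t =>
        (F2 t.2.2.2.1 t.2.2.2.2.1 (q * t.2.2.2.2.2) p.1 p.2 / (5 * (d * h : ℕ) * q),
          F1 t.2.2.1 t.2.2.2.1 t.2.2.2.2.1 p.1 p.2 / (5 * (d * h : ℕ))))) := by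
      rintro ⟨u, v⟩ huv
      by_cases h0 : u = 0 ∧ v = 0
      · rw [h0.1, h0.2]
        exact Finset.mem_insert_self _ _
      apply Finset.mem_insert_of_mem
      rw [hS] at huv
      unfold nearPts at huv
      rw [Finset.mem_filter, Finset.mem_product, Finset.mem_Icc, Finset.mem_Icc] at huv
      obtain ⟨⟨⟨b1, b2⟩, b3, b4⟩, b5, b6⟩ := huv
      simp only at b1 b2 b3 b4 b5 b6
      have hdh : 1 ≤ d * h := Nat.one_le_iff_ne_zero.mpr (Nat.mul_ne_zero (by omega) (by omega))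
      obtain ⟨A, A', B, X, c1, c2, c3, c4, c5, c6⟩ := dual_mapQ K M' M q L p.1 p.2 (d * h) a5 a2 a6
        a4 a7 hq hM' hqM hMq hL hdh hh2 (r p).1 (r p).2.1 (r p).2.2 (hr p a1 a3 a7 hp3) u v
        (abs_le.mpr ⟨by linarith, by linarith⟩) (abs_le.mpr ⟨by linarith, by linarith⟩) b5 b6
      have hne : (5 * ((d * h : ℕ) : ℤ)) ≠ 0 := by
        have : ((d * h : ℕ) : ℤ) ≠ 0 := by exact_mod_cast (by omega : d * h ≠ 0)
        omega
      have hq0 : (q : ℤ) ≠ 0 := by exact_mod_cast (by omega : q ≠ 0)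
      have hne2 : (5 * ((d * h : ℕ) : ℤ) * q) ≠ 0 := mul_ne_zero hne hq0
      rw [Finset.mem_image]
      refine ⟨(h, p, (A, A', B, X)), ?_, ?_⟩
      · rw [hFb, Finset.mem_filter]
        refine ⟨?_, rfl⟩
        unfold dualSetQ
        rw [Finset.mem_filter]
        refine ⟨?_, hp2, ?_, ?_, ?_⟩
        · rw [Finset.mem_product, Finset.mem_product]
          refine ⟨hh1, hp1, ?_⟩
          unfold vboxQ
          simp only [Finset.mem_product, Finset.mem_Icc]
          exact ⟨abs_le.mp c1, abs_le.mp c2, abs_le.mp c3, abs_le.mp c4⟩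
        · refine ⟨5 * d * v, ?_⟩
          simp only
          rw [← c5]
          push_cast
          ring
        · refine ⟨5 * d * (q * u), ?_⟩
          simp only
          rw [← c6]
          push_cast
          ring
        · simp only
          rw [← c5, ← c6]
          by_contra hcon
          push Not at hcon
          apply h0
          constructor
          · exact (mul_eq_zero.mp ((mul_eq_zero.mp hcon.2).resolve_left hne)).resolve_left hq0
          · exact (mul_eq_zero.mp hcon.1).resolve_left hne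
      · simp only
        rw [← c5, ← c6, Int.mul_ediv_cancel_left _ hne]
        have : 5 * ((d * h : ℕ) : ℤ) * (q * u) = 5 * ((d * h : ℕ) : ℤ) * q * u := by ring
        rw [this, Int.mul_ediv_cancel_left _ hne2]
    have hcard : S.card ≤ 1 + Fb.card := by
      calc S.card ≤ _ := Finset.card_le_card hsub
        _ ≤ _ := Finset.card_insert_le _ _
        _ ≤ Fb.card + 1 := Nat.add_le_add_right Finset.card_image_le 1
        _ = _ := add_comm _ _
    exact_mod_cast hcard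
  have hfin : ∑ h ∈ (Ico P (2 * P)).filter (fun h => 32 * (d * h) * M ≤ q * L * K ^ 3),
      ∑ p ∈ (pairs K K y).filter (fun p => Nat.Coprime h (5 * (p.1 * p.2)) ∧ Nat.Coprime q p.1),
        (1 + ((dualSetQ K y P q L).filter (fun t => (t.1, t.2.1) = (h, p))).card) ≤
      P * (pairs K K y).card + (dualSetQ K y P q L).card := by
    calc _ ≤ ∑ h ∈ (Ico P (2 * P)).filter (fun h => 32 * (d * h) * M ≤ q * L * K ^ 3),
        ∑ p ∈ pairs K K y, (1 + ((dualSetQ K y P q L).filter (fun t => (t.1, t.2.1) = (h, p))).card) :=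
          Finset.sum_le_sum (fun h hh => Finset.sum_le_sum_of_subset (Finset.filter_subset _ _))
      _ ≤ ∑ h ∈ Ico P (2 * P),
        ∑ p ∈ pairs K K y, (1 + ((dualSetQ K y P q L).filter (fun t => (t.1, t.2.1) = (h, p))).card) :=
          Finset.sum_le_sum_of_subset (Finset.filter_subset _ _)
      _ = ∑ x ∈ Ico P (2 * P) ×ˢ pairs K K y,
            (1 + ((dualSetQ K y P q L).filter (fun t => (t.1, t.2.1) = x)).card) := by
          rw [Finset.sum_product]
      _ = P * (pairs K K y).card + (dualSetQ K y P q L).card := by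
          rw [Finset.sum_add_distrib]
          congr 1
          · rw [Finset.sum_const, Finset.card_product, Nat.card_Ico]
            simp only [smul_eq_mul, mul_one]
            congr 1
            omega
          · symm
            apply Finset.card_eq_sum_card_fiberwise
            intro t ht
            have ht' : t ∈ dualSetQ K y P q L := ht
            unfold dualSetQ at ht'
            have := (Finset.mem_filter.mp ht').1
            rw [Finset.mem_product, Finset.mem_product] at this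
            exact Finset.mem_coe.mpr (Finset.mem_product.mpr ⟨this.1, this.2.1⟩)
  calc _ ≤ ∑ h ∈ (Ico P (2 * P)).filter (fun h => 32 * (d * h) * M ≤ q * L * K ^ 3),
      ∑ p ∈ (pairs K K y).filter (fun p => Nat.Coprime h (5 * (p.1 * p.2)) ∧ Nat.Coprime q p.1),
        ((1 + ((dualSetQ K y P q L).filter (fun t => (t.1, t.2.1) = (h, p))).card : ℕ) : ℝ) :=
        Finset.sum_le_sum (fun h hh => Finset.sum_le_sum (fun p hp => key h hh p hp))
    _ ≤ P * (pairs K K y).card + ((dualSetQ K y P q L).card : ℝ) := by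
        exact_mod_cast hfin

end Pool.Agent.helper28.LT
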